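import Pool.Agent.Helper19.HN.St

/-! # HN, module SM: a cardinal with an atom is a strong limit in HOD -/

namespace Pool.Agent.Helper92.HN.SM

open Ordinal Cardinal ZFSet Order Pool.Agent.Helper73.HODC Pool.Agent.Helper73.HM
open Pool.Agent.Helper73.HE Pool.Agent.Helper73.HU Pool.Agent.Helper19.HN

/-- the set of the first keys of the elements of `hodPow i` -/
def GG (i : Ordinal.{0}) : Set Ordinal.{0} := {b | ∃ x, x ∈ hodPow i ∧ key1 x = b}

theorem dp_GG (i : Ordinal.{0}) : DP (fun v => (v 0).rank ∈ GG i) :=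
  DP.ex (Q := fun x v => x ∈ hodPow i ∧ key1 x = (v 0).rank)
    ((dp_hodPowC i 0).and (DP.of (Pool.Agent.Helper62.HM.LS.dfn_key1 Inp.td 0 1)))

/-- the sequence of the least elements -/
def RR (i a d : Ordinal.{0}) : Prop :=
  ∃ b : Ordinal.{0}, ∃ x, Enum (GG i) a b ∧ LeastOD i (fun x => key1 x = b) x ∧ d ∈ st x

theorem dp_RR (i : Ordinal.{0}) : DP (fun v => RR i (v 0).rank (v 1).rank) := by
  refine DP.exO (Q := fun b v => ∃ x, Enum (GG i) (v 0).rank b ∧
    LeastOD i (fun x => key1 x = b) x ∧ (v 1).rank ∈ st x) ?_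
  refine DP.ex (Q := fun x v => Enum (GG i) (v 1).rank (v 0).rank ∧
    LeastOD i (fun x => key1 x = (v 0).rank) x ∧ (v 2).rank ∈ st x) ?_
  refine DP.and ?_ (DP.and ?_ (DP.st 3 0))
  · exact (DP.enum (dp_GG i)).rename (fun n => if n = 0 then 2 else 1)
  · exact Inp.ld i (fun x v => key1 x = (v 1).rank)
      (DP.of (Pool.Agent.Helper62.HM.LS.dfn_key1 Inp.td 0 2)) 0

theorem dp_RRd (i d : Ordinal.{0}) : DP (fun v => RR i (v 0).rank d) :=
  dp_subst_at (Q := fun d v => RR i (v 0).rank d)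
    ((dp_RR i).rename (fun n => if n = 0 then 1 else 0)) d

/-- the first case leads to a contradiction -/
theorem exists_no_enum {c : Cardinal.{0}} {A : Set Ordinal.{0}} (hc : c.IsRegular)
    (hA : Atm c.ord A) {i : Ordinal.{0}} (hi : i < c.ord) :
    ∃ a < c.ord, ∀ b, ¬ Enum (GG i) a b := by
  by_contra hcon
  push Not at hcon
  have hc' : ℵ₀ < c := by rw [← hc.cof_ord]; exact hA.cof
  have hdec : ∀ d < i, AE c.ord A (fun a => RR i a d ↔ AE c.ord A (fun a => RR i a d)) := by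
    intro d _
    rcases hA.dec (Q := fun a => RR i a d) (dp_RRd i d) with h | h
    · exact h.mono fun a _ _ h1 => ⟨fun _ => h, fun _ => h1⟩
    · exact h.mono fun a _ _ h1 => ⟨fun h2 => absurd h2 h1, fun h2 =>
        absurd h (AE.not_not hA.cof hA.stat h2)⟩
  have hall := AE_biforall hc hc' hi hdec
  obtain ⟨a, haA, hac, ha⟩ := hA.exists hall
  obtain ⟨a', ha'A, ha'c, ha', haa'⟩ := hA.exists (hall.and hA.cof (AE_gt hA.cof A hac))
  have key : ∀ a < c.ord, ∃ b x, Enum (GG i) a b ∧ x ∈ hodPow i ∧ key1 x = b ∧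
      ∀ d, RR i a d ↔ d ∈ st x := by
    intro a ha
    obtain ⟨b, hb⟩ := hcon a ha
    obtain ⟨x0, hx0, hx0b⟩ := hb.1
    obtain ⟨x, hx⟩ := Inp.le.2 i (fun x => key1 x = b)
      ⟨x0, (mem_hodPow.1 hx0).2, (mem_hodPow.1 hx0).1, hx0b⟩
    refine ⟨b, x, hb, mem_hodPow.2 ⟨hx.1.2.1, hx.1.1⟩, hx.1.2.2, fun d => ⟨?_, ?_⟩⟩
    · rintro ⟨b', x', h1, h2, h3⟩
      have e1 := enum_unique h1 hb
      subst e1
      rwa [Inp.le.1 i _ x x' hx h2]
    · intro h
      exact ⟨b, x, hb, hx, h⟩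
  obtain ⟨b, x, h1, h2, h3, h4⟩ := key a hac
  obtain ⟨b', x', h1', h2', h3', h4'⟩ := key a' ha'c
  have hxx : x = x' := by
    refine ext_hodPow h2 h2' fun d hd => ?_
    rw [← h4 d, ← h4' d, ha d hd, ha' d hd]
  have hbb : b = b' := by rw [← h3, ← h3', hxx]
  subst hbb
  exact absurd haa' (by rw [enum_inj h1 h1']; exact lt_irrefl _)

/-- a short enumeration of the set of first keys -/
theorem short_enum {c : Cardinal.{0}} {A : Set Ordinal.{0}} (hc : c.IsRegular)
    (hA : Atm c.ord A) {i : Ordinal.{0}} (hi : i < c.ord) :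
    ∃ a < c.ord, ∀ b ∈ GG i, ∃ a' < a, Enum (GG i) a' b := by
  have hex := exists_no_enum hc hA hi
  let S : Set Ordinal.{0} := {a | a < c.ord ∧ ∀ b, ¬ Enum (GG i) a b}
  have hS : sInf S ∈ S := csInf_mem hex
  have hmin : ∀ x < sInf S, ∃ b, Enum (GG i) x b := by
    intro x hx
    by_contra hcon
    push Not at hcon
    exact absurd (csInf_le' (show x ∈ S from ⟨hx.trans hS.1, hcon⟩)) (not_le.mpr hx)
  refine ⟨sInf S, hS.1, fun b hb => ?_⟩
  by_contra hcon
  push Not at hcon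
  choose! g hg using hmin
  obtain ⟨b', -, h'⟩ := enum_step (g := g) hg hb (fun x hx => by
    rcases lt_trichotomy (g x) b with h | h | h
    · exact h
    · exact absurd (h ▸ hg x hx) (hcon x hx)
    · exfalso
      obtain ⟨-, k, k1, k2, k3⟩ := hg x hx
      obtain ⟨y, hy, hyb⟩ := k3 b hb h
      have h1 := enum_restrict k1 k2 k3 hy
      rw [hyb] at h1
      exact hcon y (hy.trans hx) h1)
  exact hS.2 b' h'

theorem sm : StSM := by
  intro c A hc hA i hi
  have hc' : ℵ₀ < c := by rw [← hc.cof_ord]; exact hA.cof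
  obtain ⟨a, ha, hG⟩ := short_enum hc hA hi
  have : Countable Fm := countable_Fm
  have : Nonempty Fm := ⟨Fm.mem 0 0⟩
  obtain ⟨F, hF⟩ := exists_surjective_nat Fm
  let good : Ordinal.{0} → ZFSet.{0} → Prop := fun k x => x ∈ hodPow i ∧
    Enum (GG i) (k / ω) (key1 x) ∧ ∃ n : ℕ, k % ω = n ∧ x ∈ V_ (key1 x) ∧
      ∀ y ∈ V_ (key1 x), Sat {z | z ∈ V_ (key1 x)} (F n) (fun _ => y) ↔ y = x
  have huniq : ∀ k x y, good k x → good k y → x = y := by
    rintro k x y ⟨-, hx1, n, hx2, hx3, hx4⟩ ⟨-, hy1, m, hy2, hy3, hy4⟩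
    have e1 : key1 x = key1 y := enum_unique hx1 hy1
    have e2 : n = m := by
      have e3 : (n : Ordinal.{0}) = m := by rw [← hx2, ← hy2]
      exact_mod_cast e3
    subst e2
    have h5 : x ∈ V_ (key1 y) := e1 ▸ hx3
    have h6 := hy4 x h5
    have h7 := hx4 x hx3
    rw [e1] at h7
    exact h6.1 (h7.2 rfl)
  classical
  refine ⟨ω * a, ?_, fun k => if h : ∃ x, good k x then h.choose else ∅, fun x hx => ?_⟩
  · rw [Cardinal.lt_ord] at ha ⊢
    rw [Ordinal.card_mul, Ordinal.card_omega0]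
    exact Cardinal.mul_lt_of_lt hc'.le hc' ha
  · obtain ⟨a', ha', h1⟩ := hG (key1 x) ⟨x, hx, rfl⟩
    obtain ⟨φ, -, h2, h3⟩ := Pool.Agent.Helper14.HM.exists_key Inp.oz (mem_hodPow.1 hx).2
    obtain ⟨n, rfl⟩ := hF φ
    have hlt : (n : Ordinal.{0}) < ω := Ordinal.natCast_lt_omega0 n
    have hgood : good (ω * a' + n) x := by
      refine ⟨hx, ?_, n, ?_, h2, h3⟩
      · rw [Ordinal.mul_add_div _ Ordinal.omega0_ne_zero, Ordinal.div_eq_zero_of_lt hlt, add_zero]
        exact h1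
      · rw [Ordinal.mul_add_mod_self, Ordinal.mod_eq_of_lt hlt]
    refine ⟨ω * a' + n, ?_, ?_⟩
    · have h4 : ω * a' + n < ω * (Order.succ a') := by
        rw [Ordinal.mul_succ]
        exact (add_lt_add_iff_left _).2 hlt
      exact h4.trans_le (mul_le_mul_right (Order.succ_le_of_lt ha') ω)
    · have hex : ∃ x, good (ω * a' + n) x := ⟨x, hgood⟩
      simp only [dif_pos hex]
      exact huniq _ _ _ hex.choose_spec hgood

end Pool.Agent.Helper92.HN.SM
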